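import Pool.Agent.H243R3.SR.Red
import Pool.Agent.H243R3.SR.Mem
import Pool.Agent.H243R3.SR.Two

/-!
# Rationalizing stable roommates matchings is NP-complete, already for three perfect matchings

Definitions: `Pool/Agent/H243R3/SR/Defs.lean` (matchings, instances of the stable roommates problem,
stability, rationalizability) and `Pool/Agent/NPC/Defs.lean` (polynomial time, NP, NP-hardness).
-/

set_option autoImplicit false

namespace Pool.Agent.Results.MP_3056b9_lc.ThreePerfectMatchings

open Pool.Agent.NPC Pool.Agent.H243R3.SR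

/-- **SR-RATIONALIZABILITY is NP-complete, even if the input consists of three perfect
matchings**; three is the least possible number, as any two perfect matchings are
rationalizable. -/
theorem result : (InNPP Rationalizable ∧ NPHardP Rationalizable) ∧
    (InNPP Rationalizable3 ∧ NPHardP Rationalizable3) ∧
    ∀ (A : List ℕ) (M₁ M₂ : List (ℕ × ℕ)), A.Nodup → IsMatching A M₁ → IsMatching A M₂ →
      (∀ a ∈ A, ∃ b, Partner M₁ a b) → (∀ a ∈ A, ∃ b, Partner M₂ a b) →
      Rationalizable (A, [M₁, M₂]) :=
  ⟨⟨SRR.inNP, SRR.hard⟩, ⟨SRR.inNP3, SRR.hard3⟩, fun _ _ _ hA h1 h2 p1 p2 =>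
    two_rat hA h1 h2 p1 p2⟩

end Pool.Agent.Results.MP_3056b9_lc.ThreePerfectMatchings
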